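import Pool.Agent.Y602.FP.Red

set_option autoImplicit false

/-! With constants for two elements of a basis, the theory of a free pro-`p` group is not
arithmetical: every arithmetical set of natural numbers is many-one reducible to it. -/

namespace Pool.Agent.Y602.FP

open Pool.Agent.Helper948.ProP FirstOrder
open Pool.Agent.Helper948.ProP.F4b
open Pool.Agent.Helper967.ArithDef Pool.Agent.Y669.TA

/-- `i` is a free pro-`p` group with two different elements of a basis. -/
def Good (p : ℕ) (i : Ix) : Prop :=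
  ∃ (X : Type) (_ : TopologicalSpace i.F) (ι : X → i.F), IsFreeProP p ι ∧
    ∃ a b : X, a ≠ b ∧ i.x = ι a ∧ i.y = ι b

/-- the family of the free pro-`p` groups with two different elements of a basis -/
abbrev FmG (p : ℕ) : {i : Ix // Good p i} → Type := fun i => i.1.F

/-- the parameters -/
abbrev prG (p : ℕ) : ∀ i : {i : Ix // Good p i}, Fin 2 → FmG p i := fun i => ![i.1.x, i.1.y]

/-- the numbers are the powers of the second parameter -/
abbrev nuG (p : ℕ) : ∀ i : {i : Ix // Good p i}, ℕ → FmG p i := fun i n => i.1.y ^ n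

theorem good_facts {p : ℕ} [Fact p.Prime] {i : Ix} (h : Good p i) :
    (∀ m n : ℕ, i.y ^ m = i.y ^ n → m = n) ∧
    (∀ u : i.F, NatR p i.x i.y u ↔ ∃ n : ℕ, u = i.y ^ n) ∧
    ∀ a b c : ℕ, MulR p i.x i.y (i.y ^ a) (i.y ^ b) (i.y ^ c) ↔ c = a * b := by
  obtain ⟨X, _, ι, hι, a, b, hab, hx, hy⟩ := h
  have hF := finFree p ι hι
  have hch := chain_iff p ι hF a b hab
  have hinj := E2.pow_inj p ι hF b
  rw [hx, hy]
  exact ⟨hinj, F3.nat_exact p (ι a) (ι b) hinj hch, F3.mul_exact p (ι a) (ι b) hinj hch⟩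

theorem interp (p : ℕ) [Fact p.Prime] :
    Pool.Agent.Helper967.ModelDef.Interp (L := LGrp) (M := FmG p) (prG p) (nuG p) where
  rng := by
    obtain ⟨φ, hφ⟩ := dm_nat p
    exact ⟨φ, fun i v => (hφ i.1 v).trans ((good_facts i.2).2.1 (v 0))⟩
  add := by
    obtain ⟨φ, hφ⟩ := dm_eq ((DT.var 0).mul (DT.var 1)) (DT.var 2)
    refine ⟨fun i v => v 0 * v 1 = v 2, ⟨φ, fun i v => hφ i.1 v⟩, fun i w => ?_⟩
    show i.1.y ^ (w 0) * i.1.y ^ (w 1) = i.1.y ^ (w 2) ↔ _
    rw [← pow_add]
    exact ⟨fun h => (good_facts i.2).1 _ _ h, fun h => by rw [h]⟩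
  mul := by
    obtain ⟨φ, hφ⟩ := dm_mul p
    refine ⟨fun i v => MulR p i.1.x i.1.y (v 0) (v 1) (v 2), ⟨φ, fun i v => hφ i.1 v⟩,
      fun i w => ?_⟩
    show MulR p i.1.x i.1.y (i.1.y ^ (w 0)) (i.1.y ^ (w 1)) (i.1.y ^ (w 2)) ↔ _
    rw [(good_facts i.2).2.2]
    exact eq_comm

/-- The formula `∀ t, t = y ^ n → Φ x y t`, with the free variables `x`, `y`. -/
def sig2 (Φ : LGrp.BoundedFormula Empty 3) (n : ℕ) : LGrp.BoundedFormula Empty 2 :=
  ((Language.BoundedFormula.equal (Language.Term.var (Sum.inr 2)) (num n)).imp Φ).all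

theorem code_sig2 (Φ : LGrp.BoundedFormula Empty 3) (n : ℕ) : code (sig2 Φ n) =
    Nat.pair 3 (Nat.pair 2 (Nat.pair (Nat.pair 1
      (Nat.pair (Nat.pair 0 2) (termCode (num n)))) (code Φ))) := rfl

theorem primrec_sig2 (Φ : LGrp.BoundedFormula Empty 3) :
    Primrec (fun n => code (sig2 Φ n)) := by
  simp only [code_sig2]
  refine Primrec₂.natPair.comp (Primrec.const _) (Primrec₂.natPair.comp (Primrec.const _)
    (Primrec₂.natPair.comp (Primrec₂.natPair.comp (Primrec.const _)
      (Primrec₂.natPair.comp (Primrec.const _) primrec_num)) (Primrec.const _)))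

theorem realize_sig2 {F : Type} [Group F] (φ : LGrp.Formula (Fin 2 ⊕ ℕ)) (n : ℕ) (x y : F)
    (v0 : Empty → F) :
    (sig2 (Language.BoundedFormula.relabel (n := 3) gmap φ) n).Realize v0 ![x, y] ↔
      φ.Realize (Sum.elim ![x, y] (fun _ => y ^ n)) := by
  unfold sig2
  rw [Language.BoundedFormula.realize_all]
  simp only [Language.BoundedFormula.realize_imp]
  have key : ∀ c : F,
      (Language.BoundedFormula.relabel (n := 3) gmap φ : LGrp.BoundedFormula Empty 3).Realize v0
        (Fin.snoc (![x, y] : Fin 2 → F) c : Fin 3 → F) ↔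
      φ.Realize (Sum.elim ![x, y] (fun _ => c)) := by
    intro c
    rw [Language.BoundedFormula.realize_relabel]
    have h1 : (Sum.elim v0 ((Fin.snoc (![x, y] : Fin 2 → F) c
        : Fin 3 → F) ∘ Fin.castAdd 0) ∘ gmap) =
        Sum.elim (![x, y] : Fin 2 → F) (fun _ => c) := by
      funext s
      rcases s with e | k
      · fin_cases e <;> rfl
      · rfl
    rw [h1]
    unfold Language.Formula.Realize
    exact iff_of_eq (congrArg (Language.BoundedFormula.Realize φ _) (Subsingleton.elim _ _))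
  constructor
  · intro h
    refine (key _).1 (h (y ^ n) ?_)
    show _ = _
    rw [realize_num]
    rfl
  · intro h t ht
    refine (key _).2 ?_
    have h1 : t = y ^ n := Eq.trans (b := _) ht (realize_num n _)
    rw [h1]
    exact h

/-- One sequence of formulas for all free pro-`p` groups and all pairs of elements of a basis. -/
theorem exists_formulas (p : ℕ) (hp : p.Prime) {A : ℕ → Prop} (hA : Arithmetical A) :
    ∃ Ψ : ℕ → LGrp.BoundedFormula Empty 2, Computable (fun n => code (Ψ n)) ∧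
      ∀ (X F : Type) [Group F] [TopologicalSpace F] (ι : X → F), IsFreeProP p ι →
        ∀ a b : X, a ≠ b → ∀ n : ℕ,
          (Ψ n).Realize (fun e : Empty => e.elim) ![ι a, ι b] ↔ A n := by
  haveI : Fact p.Prime := ⟨hp⟩
  obtain ⟨φ, hφ⟩ := DC967.dc_arith
    (Pool.Agent.Helper967.ModelDef.DN.closed (interp p)) hA
  refine ⟨fun n => sig2 (Language.BoundedFormula.relabel (n := 3) gmap φ) n,
    (primrec_sig2 _).to_comp, fun X F _ _ ι hι a b hab n => ?_⟩
  rw [realize_sig2]
  exact hφ ⟨⟨F, ι a, ι b⟩, X, inferInstance, ι, hι, a, b, hab, rfl, rfl⟩ (fun _ => n)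

end Pool.Agent.Y602.FP
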