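import Pool.Agent.Y602.FP.Uni

set_option autoImplicit false

/-! One reduction for all groups: for a recursively enumerable set `S` there are sentences `σ n`
which are true in all groups for `n ∈ S`, and false in all free pro-`p` groups of rank at least two
for `n ∉ S`. -/

namespace Pool.Agent.Y602.FP

open Pool.Agent.Helper948.ProP Pool.Agent.Helper948.ProP.MD FirstOrder
open Pool.Agent.Helper948.ProP.F4b

/-- a block of `K` existential quantifiers -/
theorem dm_exK {R : (i : Ix) → (ℕ → i.F) → Prop}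
    (hR : DM LGrp (M := FmU) prU R) (K : ℕ) :
    DM LGrp (M := FmU) prU (fun i v => ∃ w : ℕ → i.F, (∀ n, w (n + K) = v n) ∧ R i w) := by
  induction K with
  | zero =>
    refine DM.iff (fun i v => ?_) hR
    constructor
    · intro h
      exact ⟨v, fun _ => rfl, h⟩
    · rintro ⟨w, hw, h⟩
      have : w = v := funext fun n => hw n
      rw [← this]
      exact h
  | succ K ih =>
    refine DM.iff (R := fun (i : Ix) (v : ℕ → i.F) =>
      ∃ a : i.F, ∃ w : ℕ → i.F, (∀ n, w (n + K) = cns a v n) ∧ R i w) ?_ ?_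
    · intro i v
      constructor
      · rintro ⟨a, w, hw, h⟩
        refine ⟨w, fun n => ?_, h⟩
        have h1 := hw (n + 1)
        rw [cns_succ] at h1
        rw [← h1]
        congr 1
        omega
      · rintro ⟨w, hw, h⟩
        refine ⟨w K, w, fun n => ?_, h⟩
        cases n with
        | zero => rw [cns_zero, Nat.zero_add]
        | succ n =>
          rw [cns_succ, ← hw n]
          congr 1
          omega
    · refine DM.ex (S := fun (i : Ix) (a : i.F) (v : ℕ → i.F) =>
        ∃ w : ℕ → i.F, (∀ n, w (n + K) = cns a v n) ∧ R i w) ?_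
      refine DM.iff (fun i v => ?_) ih
      rw [cns_eta]

/-- finite conjunctions -/
theorem dm_list {T : Type} (l : List T)
    {R : T → (i : Ix) → (ℕ → i.F) → Prop}
    (hR : ∀ c ∈ l, DM LGrp (M := FmU) prU (R c)) :
    DM LGrp (M := FmU) prU (fun i v => ∀ c ∈ l, R c i v) := by
  induction l with
  | nil => exact DM.iff (fun i v => by simp) (DM.const True)
  | cons a l ih =>
    refine DM.iff (fun i v => ?_) (DM.and (hR a List.mem_cons_self)
      (ih (fun c hc => hR c (List.mem_cons_of_mem _ hc))))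
    simp

variable (p : ℕ)

theorem dm_NRk (k : ℕ) : DM LGrp (M := FmU) prU (fun i v => NatR p i.x i.y (v k)) :=
  dm_NatR p (DT.var k)

theorem dm_MRk (a b c : ℕ) :
    DM LGrp (M := FmU) prU (fun i v => MulR p i.x i.y (v a) (v b) (v c)) :=
  DM.ren (R := fun (i : Ix) (v : ℕ → i.F) => MulR p i.x i.y (v 0) (v 1) (v 2))
    (fun n => if n = 0 then a else if n = 1 then b else c) (dm_mul p)

theorem dm_Ax : DM LGrp (M := FmU) prU
    (fun i _ => Ax i.F (NatR p) (MulR p) i.x i.y) := by
  refine DM.iff (R := fun (i : Ix) (_ : ℕ → i.F) =>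
    (∃ e, e = 1 ∧ NatR p i.x i.y e) ∧ (∀ u, NatR p i.x i.y u → ∃ z, z = u * i.y ∧ NatR p i.x i.y z) ∧
    (∀ a, NatR p i.x i.y a → ∃ e, e = 1 ∧ MulR p i.x i.y a e e) ∧
    (∀ a, ∀ b, ∀ c, NatR p i.x i.y a → NatR p i.x i.y b → NatR p i.x i.y c →
      MulR p i.x i.y a b c →
      ∃ r, r = b * i.y ∧ ∃ q, q = c * a ∧ MulR p i.x i.y a r q)) ?_ ?_
  · intro i v
    unfold Ax
    simp only [exists_eq_left]
  · refine DM.and ?_ (DM.and ?_ (DM.and ?_ ?_))
    · refine DM.ex (S := fun (i : Ix) (e : i.F) (v : ℕ → i.F) => e = 1 ∧ NatR p i.x i.y e)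
        (DM.and ?_ (dm_NRk p 0))
      exact dm_eq (DT.var 0) DT.one
    · refine DM.all (S := fun (i : Ix) (u : i.F) (v : ℕ → i.F) => NatR p i.x i.y u →
          ∃ z, z = u * i.y ∧ NatR p i.x i.y z)
        (DM.imp (dm_NRk p 0) ?_)
      refine DM.ex (S := fun (i : Ix) (z : i.F) (v : ℕ → i.F) => z = v 0 * i.y ∧ NatR p i.x i.y z)
        (DM.and ?_ (dm_NRk p 0))
      exact dm_eq (DT.var 0) ((DT.var 1).mul DT.par1)
    · refine DM.all (S := fun (i : Ix) (a : i.F) (v : ℕ → i.F) => NatR p i.x i.y a →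
          ∃ e, e = 1 ∧ MulR p i.x i.y a e e)
        (DM.imp (dm_NRk p 0) ?_)
      refine DM.ex (S := fun (i : Ix) (e : i.F) (v : ℕ → i.F) => e = 1 ∧ MulR p i.x i.y (v 0) e e)
        (DM.and ?_ (dm_MRk p 1 0 0))
      exact dm_eq (DT.var 0) DT.one
    · refine DM.all (S := fun (i : Ix) (a : i.F) (v : ℕ → i.F) => ∀ b, ∀ c, NatR p i.x i.y a →
        NatR p i.x i.y b → NatR p i.x i.y c →
        MulR p i.x i.y a b c → ∃ r, r = b * i.y ∧ ∃ q, q = c * a ∧ MulR p i.x i.y a r q) ?_
      refine DM.all (S := fun (i : Ix) (b : i.F) (v : ℕ → i.F) => ∀ c, NatR p i.x i.y (v 0) →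
        NatR p i.x i.y b → NatR p i.x i.y c →
        MulR p i.x i.y (v 0) b c → ∃ r, r = b * i.y ∧ ∃ q, q = c * (v 0) ∧
          MulR p i.x i.y (v 0) r q) ?_
      refine DM.all (S := fun (i : Ix) (c : i.F) (v : ℕ → i.F) => NatR p i.x i.y (v 1) →
        NatR p i.x i.y (v 0) → NatR p i.x i.y c →
        MulR p i.x i.y (v 1) (v 0) c → ∃ r, r = (v 0) * i.y ∧ ∃ q, q = c * (v 1) ∧
          MulR p i.x i.y (v 1) r q) ?_
      refine DM.imp (dm_NRk p 2) (DM.imp (dm_NRk p 1) (DM.imp (dm_NRk p 0)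
        (DM.imp (dm_MRk p 2 1 0) ?_)))
      refine DM.ex (S := fun (i : Ix) (r : i.F) (v : ℕ → i.F) => r = (v 1) * i.y ∧
          ∃ q, q = (v 0) * (v 2) ∧
          MulR p i.x i.y (v 2) r q) (DM.and ?_ ?_)
      · exact dm_eq (DT.var 0) ((DT.var 2).mul DT.par1)
      · refine DM.ex (S := fun (i : Ix) (q : i.F) (v : ℕ → i.F) => q = (v 1) * (v 3) ∧
          MulR p i.x i.y (v 3) (v 0) q) (DM.and ?_ (dm_MRk p 4 1 0))
        exact dm_eq (DT.var 0) ((DT.var 2).mul (DT.var 4))

theorem dm_Psi (L : List At) (K : ℕ) :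
    DM LGrp (M := FmU) prU (fun i v => Psi i.F (NatR p) (MulR p) L K i.x i.y v) := by
  refine dm_exK (R := fun i w => ((∀ j ∈ List.range K, NatR p i.x i.y (w j)) ∧ w 0 = w K ∧
    ∀ c ∈ L, HtA i.F (MulR p) i.x i.y w c)) ?_ K
  refine DM.and ?_ (DM.and (DM.var_eq 0 K) ?_)
  · exact dm_list (R := fun j i w => NatR p i.x i.y (w j)) _ (fun j _ => dm_NRk p j)
  · refine dm_list (R := fun c i w => HtA i.F (MulR p) i.x i.y w c) _ (fun c _ => ?_)
    cases c with
    | one i => exact dm_eq (DT.var i) DT.par1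
    | add i j k => exact dm_eq ((DT.var i).mul (DT.var j)) (DT.var k)
    | mul i j k => exact dm_MRk p i j k

/-- the tail of the assignment does not matter -/
theorem psi_tail {F : Type} [Group F] (L : List At) (x y : F) (v v' : ℕ → F) (h0 : v 0 = v' 0)
    (h : Psi F (NatR p) (MulR p) L (bndL L) x y v) :
    Psi F (NatR p) (MulR p) L (bndL L) x y v' := by
  obtain ⟨w, hw, h1, h2, h3⟩ := h
  refine ⟨fun j => if j < bndL L then w j else v' (j - bndL L), ?_, ?_, ?_, ?_⟩
  · intro m
    simp only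
    rw [if_neg (by omega), Nat.add_sub_cancel]
  · intro j hj
    simp only
    rw [if_pos (List.mem_range.1 hj)]
    exact h1 j hj
  · simp only
    rw [if_pos (by unfold bndL; omega), if_neg (by omega), Nat.sub_self, h2]
    have := hw 0
    rw [Nat.zero_add] at this
    rw [this, h0]
  · intro c hcL
    have hb := bnd_le hcL
    have h4 := h3 c hcL
    cases c with
    | one j =>
      simp only [bnd] at hb
      simp only [HtA] at h4 ⊢
      rw [if_pos (by omega)]
      exact h4
    | add j k l =>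
      simp only [bnd] at hb
      simp only [HtA] at h4 ⊢
      rw [if_pos (by omega), if_pos (by omega), if_pos (by omega)]
      exact h4
    | mul j k l =>
      simp only [bnd] at hb
      simp only [HtA] at h4 ⊢
      rw [if_pos (by omega), if_pos (by omega), if_pos (by omega)]
      exact h4

/-- the existential formula holds for `n ∈ S`, in all groups -/
theorem psi_of {F : Type} [Group F] {S : ℕ → Prop} {L : List At}
    (hL : ∀ n, S n ↔ ∃ x : ℕ → ℕ, x 0 = n ∧ ∀ c ∈ L, At.Holds x c) (n : ℕ) (hS : S n)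
    (x0 y0 : F) (v : ℕ → F) (hv : v 0 = y0 ^ n) (hax : Ax F (NatR p) (MulR p) x0 y0) :
    Psi F (NatR p) (MulR p) L (bndL L) x0 y0 v := by
  classical
  obtain ⟨x, hx0, hx⟩ := (hL n).1 hS
  obtain ⟨hn, hm⟩ := ax_pow F (NatR p) (MulR p) hax
  let w : ℕ → F := fun j => if j < bndL L then y0 ^ (x j) else v (j - bndL L)
  have hwl : ∀ j, j < bndL L → w j = y0 ^ (x j) := fun j hj => if_pos hj
  have hwv : ∀ m, w (m + bndL L) = v m := by
    intro m
    change (if m + bndL L < bndL L then y0 ^ (x (m + bndL L)) else v (m + bndL L - bndL L)) = v m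
    rw [if_neg (by omega), Nat.add_sub_cancel]
  refine ⟨w, hwv, ?_, ?_, ?_⟩
  · intro j hj
    rw [hwl j (List.mem_range.1 hj)]
    exact hn _
  · have h1 := hwv 0
    rw [Nat.zero_add] at h1
    rw [h1, hwl 0 (by unfold bndL; omega), hx0, hv]
  · intro c hcL
    have hb := bnd_le hcL
    have h1 := hx c hcL
    cases c with
    | one j =>
      simp only [bnd] at hb
      simp only [At.Holds] at h1
      change w j = y0
      rw [hwl j (by omega), h1, pow_one]
    | add j k l =>
      simp only [bnd] at hb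
      simp only [At.Holds] at h1
      change w j * w k = w l
      rw [hwl j (by omega), hwl k (by omega), hwl l (by omega), ← pow_add, h1]
    | mul j k l =>
      simp only [bnd] at hb
      simp only [At.Holds] at h1
      change MulR p x0 y0 (w j) (w k) (w l)
      rw [hwl j (by omega), hwl k (by omega), hwl l (by omega), ← h1]
      exact hm _ _

/-- the sentences of the reduction -/
theorem exists_sentences {S : ℕ → Prop} (hS : REPred S) :
    ∃ σ : ℕ → LGrp.Sentence, Computable (fun n => code (σ n)) ∧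
      (∀ n, S n → ∀ (G : Type) [Group G], G ⊨ σ n) ∧
      ∀ n, ¬ S n → p.Prime → ∀ (X F : Type) [Group F] [TopologicalSpace F] (ι : X → F),
        IsFreeProP p ι → (∃ a b : X, a ≠ b) → ¬ F ⊨ σ n := by
  obtain ⟨L, hL⟩ := F4a.exists_atoms hS
  obtain ⟨φ, hφ⟩ := DM.imp (dm_Ax p) (dm_Psi p L (bndL L))
  have key : ∀ (G : Type) [Group G] (n : ℕ),
      G ⊨ sig (Language.BoundedFormula.relabel (n := 3) gmap φ) n ↔
        ∀ (i : G × G) (t : G), t = i.2 ^ n → Ax G (NatR p) (MulR p) i.1 i.2 →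
          Psi G (NatR p) (MulR p) L (bndL L) i.1 i.2 (fun _ => t) := by
    intro G _ n
    exact realize_sig (fun i v => Ax G (NatR p) (MulR p) i.1 i.2 →
      Psi G (NatR p) (MulR p) L (bndL L) i.1 i.2 v) φ
      (fun i v => hφ ⟨G, i.1, i.2⟩ v) n
  refine ⟨fun n => sig (Language.BoundedFormula.relabel (n := 3) gmap φ) n,
    (primrec_sig _).to_comp, fun n hn G _ => ?_, fun n hn hp X F _ _ ι hι hab h => ?_⟩
  · rw [key]
    intro i t ht hax
    exact psi_of p hL n hn i.1 i.2 _ ht hax
  · obtain ⟨a, b, hab⟩ := hab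
    haveI : Fact p.Prime := ⟨hp⟩
    have hF := finFree p ι hι
    have hch := chain_iff p ι hF a b hab
    have hinj := E2.pow_inj p ι hF b
    apply hn
    rw [key] at h
    refine (psi_iff F (NatR p) (MulR p) (ι a) (ι b) hinj
      (F3.nat_exact p (ι a) (ι b) hinj hch) (F3.mul_exact p (ι a) (ι b) hinj hch) S L hL n).1 ?_
    intro i v hv hax
    exact psi_tail p L i.1 i.2 (fun _ => v 0) v rfl (h i (v 0) hv hax)

end Pool.Agent.Y602.FP
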