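import Pool.Agent.Helper948.ProP.Main
import Pool.Agent.Y669.TA.DC967
import Pool.Agent.Helper967.ModelDef

set_option autoImplicit false

/-! The relations `NatR` and `MulR` are defined by the same formulas in all groups; the axioms and
the existential formulas of the reduction as well. (After `Helper948.ProP.F2` and
`Helper948.ProP.F4b`, where the group is fixed.) -/

namespace Pool.Agent.Y602.FP

open Pool.Agent.Helper948.ProP Pool.Agent.Helper948.ProP.MD FirstOrder

/-- a group with two elements -/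
structure Ix : Type 1 where
  /-- the group -/
  F : Type
  /-- its multiplication -/
  [grp : Group F]
  /-- the first parameter -/
  x : F
  /-- the second parameter -/
  y : F

attribute [instance] Ix.grp

/-- the family of all groups with two elements -/
abbrev FmU : Ix → Type := fun i => i.F

/-- the parameters -/
abbrev prU : ∀ i : Ix, Fin 2 → FmU i := fun i => ![i.x, i.y]

/-! ### terms -/

section terms

/-- functions given by terms -/
def DT (t : (i : Ix) → (ℕ → i.F) → i.F) : Prop :=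
  ∃ τ : LGrp.Term (Fin 2 ⊕ ℕ), ∀ (i : Ix) (v : ℕ → i.F),
    τ.realize (Sum.elim (prU i) v) = t i v

theorem DT.var (n : ℕ) : DT (fun _ v => v n) :=
  ⟨Language.Term.var (Sum.inr n), fun _ _ => rfl⟩

theorem DT.par0 : DT (fun i _ => i.x) :=
  ⟨Language.Term.var (Sum.inl 0), fun _ _ => rfl⟩

theorem DT.par1 : DT (fun i _ => i.y) :=
  ⟨Language.Term.var (Sum.inl 1), fun _ _ => rfl⟩

theorem DT.one : DT (fun _ _ => 1) :=
  ⟨Language.Term.func (GSym.one : LGrp.Functions 0) ![], fun _ _ => rfl⟩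

theorem DT.mul {s t : (i : Ix) → (ℕ → i.F) → i.F} (hs : DT s) (ht : DT t) :
    DT (fun i v => s i v * t i v) := by
  obtain ⟨a, ha⟩ := hs
  obtain ⟨b, hb⟩ := ht
  refine ⟨Language.Term.func (GSym.mul : LGrp.Functions 2) ![a, b], fun i v => ?_⟩
  show _ = s i v * t i v
  rw [← ha i v, ← hb i v]
  rfl

theorem DT.inv {s : (i : Ix) → (ℕ → i.F) → i.F} (hs : DT s) :
    DT (fun i v => (s i v)⁻¹) := by
  obtain ⟨a, ha⟩ := hs
  refine ⟨Language.Term.func (GSym.inv : LGrp.Functions 1) ![a], fun i v => ?_⟩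
  show _ = (s i v)⁻¹
  rw [← ha i v]
  rfl

theorem DT.pow {s : (i : Ix) → (ℕ → i.F) → i.F} (hs : DT s) (n : ℕ) :
    DT (fun i v => (s i v) ^ n) := by
  induction n with
  | zero => simpa using DT.one
  | succ n ih => simpa only [pow_succ] using ih.mul hs

theorem DT.cm {s t : (i : Ix) → (ℕ → i.F) → i.F} (hs : DT s) (ht : DT t) :
    DT (fun i v => cm (s i v) (t i v)) :=
  ((hs.mul ht).mul hs.inv).mul ht.inv

theorem DT.TT {s t : (i : Ix) → (ℕ → i.F) → i.F} (p : ℕ) (hs : DT s) (ht : DT t) :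
    DT (fun i v => TT p (s i v) (t i v)) :=
  (ht.pow (1 + p ^ 2)).inv.mul ((hs.mul ht).mul hs.inv)

theorem dm_eq {s t : (i : Ix) → (ℕ → i.F) → i.F} (hs : DT s) (ht : DT t) :
    DM LGrp (M := FmU) prU (fun i v => s i v = t i v) := by
  obtain ⟨a, ha⟩ := hs
  obtain ⟨b, hb⟩ := ht
  refine DM.iff (fun i v => ?_) (DM.term a b)
  rw [ha i v, hb i v]

theorem dm_subst {R : (i : Ix) → (ℕ → i.F) → Prop} {t : ℕ → (i : Ix) → (ℕ → i.F) → i.F}
    (hR : DM LGrp (M := FmU) prU R) (ht : ∀ n, DT (t n)) :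
    DM LGrp (M := FmU) prU (fun i v => R i (fun n => t n i v)) := by
  obtain ⟨φ, hφ⟩ := hR
  choose σ hσ using ht
  refine ⟨φ.subst (Sum.elim (fun p => Language.Term.var (Sum.inl p)) σ), fun i v => ?_⟩
  show _ ↔ R i (fun n => t n i v)
  rw [← hφ i]
  unfold Language.Formula.Realize
  rw [Language.BoundedFormula.realize_subst]
  have : (fun a => Language.Term.realize (Sum.elim (prU i) v)
      (Sum.elim (fun p => Language.Term.var (Sum.inl p)) σ a))
      = Sum.elim (prU i) (fun n => t n i v) := by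
    funext a
    rcases a with q | n
    · rfl
    · exact hσ n i v
  rw [this]

theorem dm_subst1 {R : (i : Ix) → i.F → Prop} {s : (i : Ix) → (ℕ → i.F) → i.F}
    (hR : DM LGrp (M := FmU) prU (fun i v => R i (v 0))) (hs : DT s) :
    DM LGrp (M := FmU) prU (fun i v => R i (s i v)) :=
  dm_subst (R := fun i v => R i (v 0)) (t := fun _ => s) hR (fun _ => hs)

theorem dm_subst2 {R : (i : Ix) → i.F → i.F → Prop} {s t : (i : Ix) → (ℕ → i.F) → i.F}
    (hR : DM LGrp (M := FmU) prU (fun i v => R i (v 0) (v 1))) (hs : DT s) (ht : DT t) :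
    DM LGrp (M := FmU) prU (fun i v => R i (s i v) (t i v)) :=
  dm_subst (R := fun i v => R i (v 0) (v 1)) (t := fun n => if n = 0 then s else t) hR
    (fun n => by
      by_cases h : n = 0
      · simpa [h] using hs
      · simpa [h] using ht)

theorem dm_subst3 {R : (i : Ix) → i.F → i.F → i.F → Prop} {s t u : (i : Ix) → (ℕ → i.F) → i.F}
    (hR : DM LGrp (M := FmU) prU (fun i v => R i (v 0) (v 1) (v 2))) (hs : DT s) (ht : DT t)
    (hu : DT u) :
    DM LGrp (M := FmU) prU (fun i v => R i (s i v) (t i v) (u i v)) :=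
  dm_subst (R := fun i v => R i (v 0) (v 1) (v 2))
    (t := fun n => if n = 0 then s else if n = 1 then t else u) hR
    (fun n => by
      by_cases h : n = 0
      · simpa [h] using hs
      · by_cases h' : n = 1
        · simpa [h'] using ht
        · simpa [h, h'] using hu)

theorem dm_NN0 : DM LGrp (M := FmU) prU (fun i v => NN i.x i.y (v 0)) := by
  unfold NN
  refine DM.ex (DM.ex (DM.ex (DM.and (dm_eq ?_ ?_) (dm_eq ?_ ?_))))
  · exact (DT.var 2).mul DT.par0
  · exact DT.par0.mul (DT.var 2)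
  · exact DT.var 3
  · exact ((DT.var 2).mul ((DT.var 1).cm DT.par0)).mul ((DT.var 0).cm DT.par1)

theorem dm_NN {s : (i : Ix) → (ℕ → i.F) → i.F} (hs : DT s) :
    DM LGrp (M := FmU) prU (fun i v => NN i.x i.y (s i v)) :=
  dm_subst1 (R := fun i h => NN i.x i.y h) dm_NN0 hs

theorem dm_PP0 (p : ℕ) :
    DM LGrp (M := FmU) prU (fun i v => PP p i.x i.y (v 0) (v 1)) := by
  unfold PP
  refine DM.ex (DM.ex (DM.and (dm_NN ?_) (DM.and (dm_NN ?_) (dm_eq ?_ ?_))))
  · exact DT.var 1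
  · exact DT.var 0
  · exact DT.var 2
  · exact (DT.TT p (DT.var 3) (DT.var 1)).mul ((DT.var 0).cm DT.par0)

theorem dm_PP (p : ℕ) {s t : (i : Ix) → (ℕ → i.F) → i.F} (hs : DT s) (ht : DT t) :
    DM LGrp (M := FmU) prU (fun i v => PP p i.x i.y (s i v) (t i v)) :=
  dm_subst2 (R := fun i g h => PP p i.x i.y g h) (dm_PP0 p) hs ht

theorem dm_Chain0 (p : ℕ) :
    DM LGrp (M := FmU) prU (fun i v => Chain p i.x i.y (v 0) (v 1)) := by
  unfold Chain
  refine DM.ex (DM.ex (DM.and (dm_eq ?_ ?_) (DM.and (DM.not (dm_eq ?_ ?_))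
    (DM.and (dm_PP p ?_ ?_) (DM.and (dm_PP p ?_ ?_) (DM.all (DM.imp (dm_eq ?_ ?_)
      (DM.imp (dm_PP p ?_ ?_) (DM.or (dm_eq ?_ ?_) (dm_PP p ?_ ?_))))))))))
  · exact (DT.var 0).mul DT.par0
  · exact DT.par0.mul (DT.var 0)
  · exact DT.var 0
  · exact DT.one
  · exact (DT.var 1).mul (DT.var 0).inv
  · exact DT.par1
  · exact DT.var 1
  · exact DT.par1.mul ((DT.var 2).pow p)
  · exact (DT.var 0).mul DT.par1
  · exact DT.par1.mul (DT.var 0)
  · exact DT.var 2
  · exact DT.par1.mul ((DT.var 0).pow p)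
  · exact DT.var 0
  · exact DT.var 4
  · exact DT.var 2
  · exact DT.par1.mul (((DT.var 0).mul (DT.var 3)).pow p)

theorem dm_Chain (p : ℕ) {s t : (i : Ix) → (ℕ → i.F) → i.F} (hs : DT s) (ht : DT t) :
    DM LGrp (M := FmU) prU (fun i v => Chain p i.x i.y (s i v) (t i v)) :=
  dm_subst2 (R := fun i g h => Chain p i.x i.y g h) (dm_Chain0 p) hs ht

theorem dm_NatR {s : (i : Ix) → (ℕ → i.F) → i.F} (p : ℕ) (hs : DT s) :
    DM LGrp (M := FmU) prU (fun i v => NatR p i.x i.y (s i v)) := by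
  unfold NatR
  exact DM.or (dm_eq hs DT.one) (dm_Chain p DT.par1 hs)

theorem dm_LcmR0 (p : ℕ) :
    DM LGrp (M := FmU) prU (fun i v => LcmR p i.x i.y (v 0) (v 1) (v 2)) := by
  unfold LcmR
  refine DM.and (dm_Chain p ?_ ?_) (DM.and (dm_Chain p ?_ ?_) (DM.all (DM.imp (dm_NatR p ?_)
    (DM.imp (dm_Chain p ?_ ?_) (DM.imp (dm_Chain p ?_ ?_) (dm_Chain p ?_ ?_))))))
  · exact DT.var 0
  · exact DT.var 2
  · exact DT.var 1
  · exact DT.var 2
  · exact DT.var 0
  · exact DT.var 1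
  · exact DT.var 0
  · exact DT.var 2
  · exact DT.var 0
  · exact DT.var 3
  · exact DT.var 0

theorem dm_LcmR (p : ℕ) {s t u : (i : Ix) → (ℕ → i.F) → i.F} (hs : DT s) (ht : DT t)
    (hu : DT u) :
    DM LGrp (M := FmU) prU (fun i v => LcmR p i.x i.y (s i v) (t i v) (u i v)) :=
  dm_subst3 (R := fun i g h k => LcmR p i.x i.y g h k) (dm_LcmR0 p) hs ht hu

end terms

/-- Term-level helpers are up to you.  Target: the two relations of the interpreted arithmetic are
uniformly definable with the parameters `x, y`. -/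
theorem dm_nat (p : ℕ) :
    DM LGrp (M := FmU) prU (fun i v => NatR p i.x i.y (v 0)) :=
  dm_NatR p (DT.var 0)

theorem dm_mul (p : ℕ) :
    DM LGrp (M := FmU) prU (fun i v => MulR p i.x i.y (v 0) (v 1) (v 2)) := by
  unfold MulR
  refine DM.or (DM.and (dm_eq ?_ ?_) (dm_eq ?_ ?_)) (DM.or (DM.and (dm_eq ?_ ?_) (dm_eq ?_ ?_))
    (DM.and (DM.and (DM.not (dm_eq ?_ ?_)) (DM.not (dm_eq ?_ ?_))) (DM.ex (DM.ex (DM.ex
      (DM.and (DM.and (dm_LcmR p ?_ ?_ ?_) (dm_LcmR p ?_ ?_ ?_)) (DM.and (dm_LcmR p ?_ ?_ ?_)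
        (dm_eq ?_ ?_))))))))
  · exact DT.var 0
  · exact DT.one
  · exact DT.var 2
  · exact DT.one
  · exact DT.var 1
  · exact DT.one
  · exact DT.var 2
  · exact DT.one
  · exact DT.var 0
  · exact DT.one
  · exact DT.var 1
  · exact DT.one
  · exact DT.var 3
  · exact (DT.var 3).mul DT.par1
  · exact DT.var 2
  · exact DT.var 4
  · exact (DT.var 4).mul DT.par1
  · exact DT.var 1
  · exact (DT.var 3).mul (DT.var 4)
  · exact ((DT.var 3).mul (DT.var 4)).mul DT.par1
  · exact DT.var 0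
  · exact DT.var 0
  · exact ((DT.var 2).mul (DT.var 1)).mul ((DT.var 5).mul (DT.var 5))




end Pool.Agent.Y602.FP
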